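import Pool.Agent.Lib.MP_6ec4b3_lc.Interfaces

/-!
# Module MARKOV: the bits of a random word are independent random forms, and Markov's inequality
-/

namespace Pool.Agent.Polya.H93

open Pool.Agent.Polya

theorem getD_ofFn {N : ℕ} (r : Fin N → Bool) (i : ℕ) (hi : i < N) :
    (List.ofFn r).getD i false = r ⟨i, hi⟩ := by
  rw [List.getD_eq_getElem _ _ (by simpa using hi)]
  simp

theorem bit_inj {x y : Bool} (h : (if x = true then (1 : ZMod 2) else 0) = if y = true then 1 else 0) :
    x = y := by
  cases x <;> cases y <;> simp_all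

/-- The words of length `nbits` correspond to the choices of the forms. -/
theorem phi_inj (n l t : ℕ) :
    Function.Injective (fun r : Fin (nbits n l t) → Bool => omOf n l t (List.ofFn r)) := by
  intro r r' h
  funext idx
  obtain ⟨x, hx⟩ := idx
  have hx' : x < 2 * (n * n * t) * l := hx
  have hl : 0 < l := by
    rcases Nat.eq_zero_or_pos l with h0 | h0
    · subst h0; simp at hx'
    · exact h0
  obtain ⟨j, a, hja, ha⟩ : ∃ j a, x = j * l + a ∧ a < l :=
    ⟨x / l, x % l, by rw [Nat.mul_comm]; exact (Nat.div_add_mod x l).symm, Nat.mod_lt _ hl⟩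
  have hj : j < 2 * (n * n * t) := by
    by_contra hcon
    have : 2 * (n * n * t) * l ≤ j * l := Nat.mul_le_mul_right l (by omega)
    omega
  obtain ⟨m, b, hmb, hb⟩ : ∃ m b, j = 2 * m + b ∧ b < 2 :=
    ⟨j / 2, j % 2, (Nat.div_add_mod j 2).symm, Nat.mod_lt _ (by norm_num)⟩
  have hm : m < n * n * t := by omega
  have ht : 0 < t := by
    rcases Nat.eq_zero_or_pos t with h0 | h0
    · subst h0; simp at hm
    · exact h0
  obtain ⟨uv, i, huv, hi⟩ : ∃ uv i, m = uv * t + i ∧ i < t :=
    ⟨m / t, m % t, by rw [Nat.mul_comm]; exact (Nat.div_add_mod m t).symm, Nat.mod_lt _ ht⟩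
  have huvn : uv < n * n := by
    by_contra hcon
    have : n * n * t ≤ uv * t := Nat.mul_le_mul_right t (by omega)
    omega
  have hn : 0 < n := by
    rcases Nat.eq_zero_or_pos n with h0 | h0
    · subst h0; simp at huvn
    · exact h0
  obtain ⟨u, v, huv', hv⟩ : ∃ u v, uv = u * n + v ∧ v < n :=
    ⟨uv / n, uv % n, by rw [Nat.mul_comm]; exact (Nat.div_add_mod uv n).symm, Nat.mod_lt _ hn⟩
  have hu : u < n := by
    by_contra hcon
    have : n * n ≤ u * n := Nat.mul_le_mul_right n (by omega)
    omega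
  have hq : qn n t u v i = m := by unfold qn; rw [huv, huv']
  have h1 := congrFun h (⟨u, hu⟩, ⟨v, hv⟩, ⟨i, hi⟩)
  simp only [omOf, hq] at h1
  have h2 := Prod.ext_iff.1 h1
  simp only at h2
  have hcase : b = 0 ∨ b = 1 := by omega
  rcases hcase with rfl | rfl
  · have h3 := congrFun h2.1 ⟨a, ha⟩
    simp only [fn] at h3
    have hidx : 2 * m * l + a = x := by rw [hja, hmb, Nat.add_zero]
    rw [hidx, getD_ofFn r x hx, getD_ofFn r' x hx] at h3
    exact bit_inj h3
  · have h3 := congrFun h2.2 ⟨a, ha⟩
    simp only [fn] at h3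
    have hidx : (2 * m + 1) * l + a = x := by rw [hja, hmb]
    rw [hidx, getD_ofFn r x hx, getD_ofFn r' x hx] at h3
    exact bit_inj h3

theorem card_Om (n l t : ℕ) : Fintype.card (Om n l t) = 2 ^ nbits n l t := by
  unfold Om Ix nbits
  simp only [Fintype.card_fun, Fintype.card_prod, Fintype.card_fin, ZMod.card]
  rw [← pow_add, ← pow_mul]
  congr 1
  ring

theorem phi_bij (n l t : ℕ) :
    Function.Bijective (fun r : Fin (nbits n l t) → Bool => omOf n l t (List.ofFn r)) := by
  rw [Fintype.bijective_iff_injective_and_card]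
  refine ⟨phi_inj n l t, ?_⟩
  rw [card_Om]
  simp

/-- The bits of a random word are independent random forms. -/
theorem prob_omOf (n l t : ℕ) (P : Om n l t → Prop) :
    prob (nbits n l t) (fun r => P (omOf n l t r)) =
      (Nat.card {ω : Om n l t // P ω} : ℝ) / Fintype.card (Om n l t) := by
  unfold prob
  rw [card_Om]
  congr 2
  · refine Nat.card_congr ?_
    exact (Equiv.ofBijective _ (phi_bij n l t)).subtypeEquiv (fun r => Iff.rfl)
  · push_cast
    rfl

theorem markov : MARKOV := by
  classical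
  intro n l t f S hf hS
  rw [prob_omOf n l t (fun ω => f ω ≤ 8 * S)]
  have hcard : (0 : ℝ) < Fintype.card (Om n l t) := by
    rw [card_Om]; positivity
  rw [le_div_iff₀ hcard]
  have hS0 : 0 ≤ S := by
    by_contra hneg
    push Not at hneg
    have h1 : 0 ≤ ∑ ω, f ω := Finset.sum_nonneg fun ω _ => hf ω
    have h2 : (Fintype.card (Om n l t) : ℝ) * S < 0 := mul_neg_of_pos_of_neg hcard hneg
    linarith
  rw [Nat.card_eq_fintype_card, Fintype.card_subtype]
  have hsplit : ((Finset.univ.filter fun ω => f ω ≤ 8 * S).card : ℝ) +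
      (Finset.univ.filter fun ω => ¬ f ω ≤ 8 * S).card = Fintype.card (Om n l t) := by
    rw [← Nat.cast_add, Finset.card_filter_add_card_filter_not, Finset.card_univ]
  rcases hS0.eq_or_lt with h0 | hpos
  · have hbad : (Finset.univ.filter fun ω => ¬ f ω ≤ 8 * S) = ∅ := by
      rw [Finset.filter_eq_empty_iff]
      intro ω _ hω
      have h1 : f ω ≤ ∑ ω, f ω := Finset.single_le_sum (fun ω _ => hf ω) (Finset.mem_univ ω)
      rw [← h0] at hS hω
      rw [mul_zero] at hS hω
      exact hω (h1.trans hS)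
    rw [hbad] at hsplit
    simp only [Finset.card_empty, Nat.cast_zero, add_zero] at hsplit
    rw [hsplit]
    linarith
  · have hbad : ((Finset.univ.filter fun ω => ¬ f ω ≤ 8 * S).card : ℝ) * (8 * S) ≤
        Fintype.card (Om n l t) * S := by
      refine le_trans ?_ hS
      calc ((Finset.univ.filter fun ω => ¬ f ω ≤ 8 * S).card : ℝ) * (8 * S)
          = ∑ ω ∈ Finset.univ.filter (fun ω => ¬ f ω ≤ 8 * S), 8 * S := by
            rw [Finset.sum_const, nsmul_eq_mul]
        _ ≤ ∑ ω ∈ Finset.univ.filter (fun ω => ¬ f ω ≤ 8 * S), f ω := by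
            apply Finset.sum_le_sum
            intro ω hω
            rw [Finset.mem_filter] at hω
            exact (not_le.1 hω.2).le
        _ ≤ ∑ ω, f ω := Finset.sum_le_sum_of_subset_of_nonneg (Finset.filter_subset _ _)
            (fun ω _ _ => hf ω)
    have hbad' : ((Finset.univ.filter fun ω => ¬ f ω ≤ 8 * S).card : ℝ) * 8 ≤
        Fintype.card (Om n l t) := by
      have : ((Finset.univ.filter fun ω => ¬ f ω ≤ 8 * S).card : ℝ) * 8 * S ≤
        Fintype.card (Om n l t) * S := by linarith
      exact le_of_mul_le_mul_right this hpos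
    linarith

end Pool.Agent.Polya.H93
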